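import Pool.Agent.Lib.HYP.Def

/-!
Module L.Tau of MP_950c68_ag (genus g). The functional `τ` on `S[θ] = AdjoinRoot f`, `f` monic of
degree `n`.

PROOF. `AdjoinRoot.modByMonicHom_mk`: `modByMonicHom hf (mk f P) = P %ₘ f`. `tau_mk_lt`:
`Polynomial.modByMonic_eq_self_iff` / `degree_lt`. `root f ^ j = mk f (X ^ j)` (`AdjoinRoot.mk_X`).
`tau_bc`: for `c = mk f P` one has `bc φ f c = mk (f.map φ) (P.map φ)` (`bc_mk`),
`Polynomial.map_modByMonic`, `Monic.natDegree_map` (if `T` is trivial everything is equal).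
`exists_repr`: `P = modByMonicHom hf c` (`AdjoinRoot.mk_leftInverse`, `natDegree_modByMonic_lt`; for
`f.natDegree ≥ 1`, `f ≠ 1`).
`eq_zero_of_tau`: write `c = mk f P`, `P.natDegree < n`. If `P ≠ 0`, let `d = P.natDegree`; then
`c * root f ^ (n - 1 - d) = mk f (P * X ^ (n - 1 - d))`, of degree `n - 1 < n`, so `tau` of it is the
leading coefficient of `P`, nonzero.
`bc_injective`: if `bc φ f c = 0` then `φ (τ (c θ ^ j)) = τ (bc φ f (c * θ ^ j)) = 0`, so `c = 0`
(`eq_zero_of_tau`), for monic `f`.
`mem_of_tau` (dual basis): `c = mk f P`, `P.natDegree < n`. Show by strong induction on `s` that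
`P.coeff (n - 1 - s) ∈ R` for `s ≤ n - 1`: `τ (c θ ^ s) = Σ_{i < n} P.coeff i * τ (θ ^ (i + s))`, the terms with
`i + s < n - 1` vanish, the term `i = n - 1 - s` is `P.coeff (n - 1 - s)`, the others are
`P.coeff i * τ (θ ^ (i + s))` with `i > n - 1 - s` (in `R` by induction) times an element of `R`
(`tau_mem`). `tau_mem`: the remainder of the division of `P` by `f` has coefficients in `R`:
`P = P'.map R.subtype`, `f = f'.map R.subtype` (`Polynomial.toSubring` or `mem_lifts`), `f'` monic,
`map_modByMonic`; or `tau_bc` applied to `R.subtype`.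
-/

set_option autoImplicit false

open Polynomial

namespace Pool.Agent.HYP

variable {S : Type} [CommRing S] {f : S[X]} (hf : f.Monic)

theorem tau_mk (P : S[X]) : tau hf (AdjoinRoot.mk f P) = (P %ₘ f).coeff (f.natDegree - 1) := by
  change (AdjoinRoot.modByMonicHom hf (AdjoinRoot.mk f P)).coeff (f.natDegree - 1) = _
  rw [AdjoinRoot.modByMonicHom_mk]

theorem tau_mk_lt (P : S[X]) (h : P.natDegree < f.natDegree) :
    tau hf (AdjoinRoot.mk f P) = P.coeff (f.natDegree - 1) := by
  rcases subsingleton_or_nontrivial S with hS | hS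
  · exact Subsingleton.elim _ _
  · rw [tau_mk, (modByMonic_eq_self_iff hf).2 (degree_lt_degree h)]

theorem tau_root_pow {j : ℕ} (h : j + 1 < f.natDegree) : tau hf (AdjoinRoot.root f ^ j) = 0 := by
  rw [← AdjoinRoot.mk_X, ← map_pow, tau_mk_lt hf _ (lt_of_le_of_lt (natDegree_X_pow_le j) (by omega)), coeff_X_pow,
    if_neg (by omega)]

theorem tau_root_top (h : 1 ≤ f.natDegree) :
    tau hf (AdjoinRoot.root f ^ (f.natDegree - 1)) = 1 := by
  rw [← AdjoinRoot.mk_X, ← map_pow, tau_mk_lt hf _ (lt_of_le_of_lt (natDegree_X_pow_le _) (by omega)), coeff_X_pow,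
    if_pos rfl]

theorem bc_mk {T : Type} [CommRing T] (φ : S →+* T) (P : S[X]) :
    bc φ f (AdjoinRoot.mk f P) = AdjoinRoot.mk (f.map φ) (P.map φ) := by
  unfold bc AdjoinRoot.map
  rw [AdjoinRoot.lift_mk, ← eval₂_map]
  exact AdjoinRoot.aeval_eq (P.map φ)

theorem bc_root {T : Type} [CommRing T] (φ : S →+* T) :
    bc φ f (AdjoinRoot.root f) = AdjoinRoot.root (f.map φ) := by
  unfold bc
  rw [AdjoinRoot.map_root]

theorem bc_smul {T : Type} [CommRing T] (φ : S →+* T) (s : S) (c : AdjoinRoot f) :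
    bc φ f (s • c) = φ s • bc φ f c := by
  rw [Algebra.smul_def, Algebra.smul_def, map_mul, AdjoinRoot.algebraMap_eq, AdjoinRoot.algebraMap_eq]
  congr 1
  unfold bc
  rw [AdjoinRoot.map_of]

theorem tau_bc {T : Type} [CommRing T] (φ : S →+* T) (c : AdjoinRoot f) :
    tau (hf.map φ) (bc φ f c) = φ (tau hf c) := by
  rcases subsingleton_or_nontrivial T with hT | hT
  · exact Subsingleton.elim _ _
  · obtain ⟨P, rfl⟩ := AdjoinRoot.mk_surjective c
    rw [bc_mk, tau_mk, tau_mk, ← map_modByMonic φ hf, hf.natDegree_map, coeff_map]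

include hf in
theorem exists_repr (h : 1 ≤ f.natDegree) (c : AdjoinRoot f) :
    ∃ P : S[X], P.natDegree < f.natDegree ∧ c = AdjoinRoot.mk f P := by
  obtain ⟨P, rfl⟩ := AdjoinRoot.mk_surjective c
  refine ⟨P %ₘ f, natDegree_modByMonic_lt P hf ?_, ?_⟩
  · rintro rfl
    rw [natDegree_one] at h
    omega
  · have h1 := AdjoinRoot.mk_leftInverse hf (AdjoinRoot.mk f P)
    rw [AdjoinRoot.modByMonicHom_mk] at h1
    exact h1.symm

theorem eq_zero_of_tau (c : AdjoinRoot f)
    (h : ∀ j < f.natDegree, tau hf (c * AdjoinRoot.root f ^ j) = 0) : c = 0 := by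
  rcases Nat.eq_zero_or_pos f.natDegree with h0 | h0
  · have h1 : f = 1 := hf.natDegree_eq_zero.mp h0
    obtain ⟨P, rfl⟩ := AdjoinRoot.mk_surjective c
    rw [AdjoinRoot.mk_eq_zero, h1]
    exact one_dvd _
  · obtain ⟨P, hP, rfl⟩ := exists_repr hf h0 c
    by_contra hne
    have hP0 : P ≠ 0 := by
      rintro rfl
      exact hne (map_zero _)
    have h1 := h (f.natDegree - 1 - P.natDegree) (by omega)
    rw [← AdjoinRoot.mk_X, ← map_pow, ← map_mul] at h1
    have hdeg : (P * X ^ (f.natDegree - 1 - P.natDegree)).natDegree < f.natDegree := by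
      refine lt_of_le_of_lt natDegree_mul_le ?_
      have := natDegree_X_pow_le (R := S) (f.natDegree - 1 - P.natDegree)
      omega
    rw [tau_mk_lt hf _ hdeg] at h1
    have h2 : f.natDegree - 1 = P.natDegree + (f.natDegree - 1 - P.natDegree) := by omega
    rw [h2, show P.natDegree + (f.natDegree - 1 - P.natDegree) - P.natDegree =
      f.natDegree - 1 - P.natDegree by omega, coeff_mul_X_pow, coeff_natDegree, leadingCoeff_eq_zero] at h1
    exact hP0 h1

include hf in
theorem bc_injective {T : Type} [CommRing T] (φ : S →+* T) (hφ : Function.Injective φ) :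
    Function.Injective (bc φ f) := by
  rw [injective_iff_map_eq_zero]
  intro c hc
  refine eq_zero_of_tau hf c fun j _ => ?_
  apply hφ
  rw [map_zero, ← tau_bc, map_mul, hc, zero_mul, map_zero]

private theorem tau_lift (R : Subring S) (P : S[X]) (hP : ∀ i, P.coeff i ∈ R) :
    ((P.coeffs : Finset S) : Set S) ⊆ R := by
  intro x hx
  obtain ⟨n, _, rfl⟩ := mem_coeffs_iff.1 (Finset.mem_coe.1 hx)
  exact hP n

theorem tau_mem (R : Subring S) (hR : ∀ i, f.coeff i ∈ R) (P : S[X]) (hP : ∀ i, P.coeff i ∈ R) :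
    tau hf (AdjoinRoot.mk f P) ∈ R := by
  have hf1 := map_toSubring f R (tau_lift R f hR)
  have hP1 := map_toSubring P R (tau_lift R P hP)
  have hm : (f.toSubring R (tau_lift R f hR)).Monic := (monic_toSubring f R (tau_lift R f hR)).2 hf
  rw [tau_mk]
  have h1 : P %ₘ f = ((P.toSubring R (tau_lift R P hP)) %ₘ (f.toSubring R (tau_lift R f hR))).map R.subtype := by
    rw [map_modByMonic _ hm, hf1, hP1]
  rw [h1, coeff_map]
  exact SetLike.coe_mem _

private theorem tau_expand {P : S[X]} (hP : P.natDegree < f.natDegree) (s : ℕ) :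
    AdjoinRoot.mk f P * AdjoinRoot.root f ^ s =
      ∑ i ∈ Finset.range f.natDegree, P.coeff i • AdjoinRoot.root f ^ (i + s) := by
  conv_lhs => rw [P.as_sum_range' f.natDegree hP]
  rw [map_sum, Finset.sum_mul]
  refine Finset.sum_congr rfl fun i _ => ?_
  rw [← C_mul_X_pow_eq_monomial, map_mul, map_pow, AdjoinRoot.mk_X, AdjoinRoot.mk_C, Algebra.smul_def,
    AdjoinRoot.algebraMap_eq, pow_add, mul_assoc]

theorem mem_of_tau (R : Subring S) (hR : ∀ i, f.coeff i ∈ R) (hn : 1 ≤ f.natDegree)
    (c : AdjoinRoot f) (h : ∀ j < f.natDegree, tau hf (c * AdjoinRoot.root f ^ j) ∈ R) :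
    ∃ P : S[X], (∀ i, P.coeff i ∈ R) ∧ P.natDegree < f.natDegree ∧ c = AdjoinRoot.mk f P := by
  obtain ⟨P, hP, rfl⟩ := exists_repr hf hn c
  refine ⟨P, ?_, hP, rfl⟩
  have key : ∀ s, s < f.natDegree → P.coeff (f.natDegree - 1 - s) ∈ R := by
    intro s
    induction s using Nat.strong_induction_on with
    | _ s ih =>
      intro hs
      have h1 := h s hs
      rw [tau_expand hP s, map_sum, ← Finset.add_sum_erase _ _
        (Finset.mem_range.2 (show f.natDegree - 1 - s < f.natDegree by omega))] at h1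
      have h2 : tau hf (P.coeff (f.natDegree - 1 - s) • AdjoinRoot.root f ^ (f.natDegree - 1 - s + s)) =
          P.coeff (f.natDegree - 1 - s) := by
        rw [map_smul, show f.natDegree - 1 - s + s = f.natDegree - 1 by omega, tau_root_top hf hn, smul_eq_mul,
          mul_one]
      have h3 : ∑ i ∈ (Finset.range f.natDegree).erase (f.natDegree - 1 - s),
          tau hf (P.coeff i • AdjoinRoot.root f ^ (i + s)) ∈ R := by
        refine Subring.sum_mem R fun i hi => ?_
        rw [Finset.mem_erase, Finset.mem_range] at hi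
        obtain ⟨hi1, hi2⟩ := hi
        rw [map_smul, smul_eq_mul]
        by_cases hlt : i + s + 1 < f.natDegree
        · rw [tau_root_pow hf hlt, mul_zero]
          exact R.zero_mem
        · have h4 := ih (f.natDegree - 1 - i) (by omega) (by omega)
          rw [show f.natDegree - 1 - (f.natDegree - 1 - i) = i by omega] at h4
          refine R.mul_mem h4 ?_
          rw [← AdjoinRoot.mk_X, ← map_pow]
          refine tau_mem hf R hR _ fun l => ?_
          rw [coeff_X_pow]
          split_ifs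
          · exact R.one_mem
          · exact R.zero_mem
      rw [h2] at h1
      have h5 := R.sub_mem h1 h3
      rwa [add_sub_cancel_right] at h5
  intro i
  by_cases hi : i < f.natDegree
  · have h1 := key (f.natDegree - 1 - i) (by omega)
    rwa [show f.natDegree - 1 - (f.natDegree - 1 - i) = i by omega] at h1
  · rw [coeff_eq_zero_of_natDegree_lt (by omega)]
    exact R.zero_mem

end Pool.Agent.HYP
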