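import Pool.Agent.Lib.HYP.L.Tau

/-!
Module L.Gram of MP_950c68_ag (genus g). Gram matrices under change of basis, base change, change of
representative.

PROOF. Everything is bilinearity of `(l, l') ↦ τ (c l l')` (`map_sum`, `Finset.mul_sum`,
`Matrix.mul_apply`, `mul_smul_comm`, `map_smul`) and `mul_comm`. `gram_bc`: `tau_bc`, `bc_root`.
`eq_coord`: `b i = mk f (modByMonicHom hf (b i))` (`mk_leftInverse`), a polynomial of degree `< n`,
`Polynomial.as_sum_range_C_mul_X_pow'` (or `as_sum_range'`), `Finset.sum_range`/`Fin.sum_univ_eq_sum_range`,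
`mk_C`, `mk_X`, `Algebra.smul_def`. `coord_std`, `coord_chb`: `modByMonicHom` is linear.
-/

set_option autoImplicit false

open Polynomial

namespace Pool.Agent.HYP

variable {S : Type} [CommRing S] {f : S[X]} (hf : f.Monic)

private theorem lg_tau_sum {m n : ℕ} (d : AdjoinRoot f) (b : Fin n → AdjoinRoot f)
    (b' : Fin m → AdjoinRoot f) (x : Fin n → S) (y : Fin m → S) :
    tau hf (d * (∑ j, x j • b j) * (∑ l, y l • b' l)) =
      ∑ l, (∑ j, x j * tau hf (d * b j * b' l)) * y l := by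
  rw [Finset.mul_sum, map_sum]
  refine Finset.sum_congr rfl fun l _ => ?_
  rw [mul_smul_comm, map_smul, Finset.mul_sum, Finset.sum_mul, map_sum, smul_eq_mul, mul_comm]
  congr 1
  refine Finset.sum_congr rfl fun j _ => ?_
  rw [mul_smul_comm, smul_mul_assoc, map_smul, smul_eq_mul]

theorem gram1_chb {m n : ℕ} (c : AdjoinRoot f) (b : Fin n → AdjoinRoot f)
    (P : Matrix (Fin m) (Fin n) S) :
    gram1 hf c (fun i => ∑ j, P i j • b j) = P * gram1 hf c b * P.transpose := by
  ext i i'
  rw [Matrix.mul_apply]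
  show tau hf (c * (∑ j, P i j • b j) * (∑ j, P i' j • b j)) = _
  rw [lg_tau_sum]
  refine Finset.sum_congr rfl fun l _ => ?_
  rw [Matrix.mul_apply, Matrix.transpose_apply]
  rfl

theorem gram2_chb {m n : ℕ} (c : AdjoinRoot f) (b : Fin n → AdjoinRoot f)
    (P : Matrix (Fin m) (Fin n) S) :
    gram2 hf c (fun i => ∑ j, P i j • b j) = P * gram2 hf c b * P.transpose := by
  exact gram1_chb hf (AdjoinRoot.root f * c) b P

theorem gram1_symm {n : ℕ} (c : AdjoinRoot f) (b : Fin n → AdjoinRoot f) :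
    (gram1 hf c b).transpose = gram1 hf c b := by
  ext i j
  show tau hf (c * b j * b i) = tau hf (c * b i * b j)
  rw [mul_right_comm]

theorem gram2_symm {n : ℕ} (c : AdjoinRoot f) (b : Fin n → AdjoinRoot f) :
    (gram2 hf c b).transpose = gram2 hf c b := by
  exact gram1_symm hf (AdjoinRoot.root f * c) b

theorem gram2_eq {n : ℕ} (c : AdjoinRoot f) (b : Fin n → AdjoinRoot f) :
    gram2 hf c b = gram1 hf (AdjoinRoot.root f * c) b := by
  rfl

theorem gram1_scale {n : ℕ} (c u : AdjoinRoot f) (b : Fin n → AdjoinRoot f) :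
    gram1 hf c (fun i => u * b i) = gram1 hf (c * u ^ 2) b := by
  ext i j
  show tau hf (c * (u * b i) * (u * b j)) = tau hf (c * u ^ 2 * b i * b j)
  congr 1
  ring

theorem gram2_scale {n : ℕ} (c u : AdjoinRoot f) (b : Fin n → AdjoinRoot f) :
    gram2 hf c (fun i => u * b i) = gram2 hf (c * u ^ 2) b := by
  ext i j
  show tau hf (AdjoinRoot.root f * c * (u * b i) * (u * b j)) =
    tau hf (AdjoinRoot.root f * (c * u ^ 2) * b i * b j)
  congr 1
  ring

theorem gram1_bc {T : Type} [CommRing T] (φ : S →+* T) {n : ℕ} (c : AdjoinRoot f)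
    (b : Fin n → AdjoinRoot f) :
    gram1 (hf.map φ) (bc φ f c) (fun i => bc φ f (b i)) = (gram1 hf c b).map φ := by
  ext i j
  show tau (hf.map φ) (bc φ f c * bc φ f (b i) * bc φ f (b j)) = φ (tau hf (c * b i * b j))
  rw [← tau_bc, map_mul (bc φ f), map_mul (bc φ f)]

theorem gram2_bc {T : Type} [CommRing T] (φ : S →+* T) {n : ℕ} (c : AdjoinRoot f)
    (b : Fin n → AdjoinRoot f) :
    gram2 (hf.map φ) (bc φ f c) (fun i => bc φ f (b i)) = (gram2 hf c b).map φ := by
  ext i j
  show tau (hf.map φ) (AdjoinRoot.root (f.map φ) * bc φ f c * bc φ f (b i) * bc φ f (b j)) =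
    φ (tau hf (AdjoinRoot.root f * c * b i * b j))
  rw [← tau_bc, map_mul (bc φ f), map_mul (bc φ f), map_mul (bc φ f), bc_root]

private theorem lg_sum_fin {n : ℕ} (P : S[X]) (h : ∀ m, n ≤ m → P.coeff m = 0) :
    P = ∑ j : Fin n, C (P.coeff j) * X ^ (j : ℕ) := by
  rw [Fin.sum_univ_eq_sum_range (fun j => C (P.coeff j) * X ^ j) n]
  ext m
  rw [finsetSum_coeff]
  by_cases hm : m < n
  · rw [Finset.sum_eq_single m]
    · rw [coeff_C_mul, coeff_X_pow_self, mul_one]
    · intro j _ hj
      rw [coeff_C_mul, coeff_X_pow, if_neg (Ne.symm hj), mul_zero]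
    · intro h'
      exact absurd (Finset.mem_range.2 hm) h'
  · rw [h m (not_lt.1 hm)]
    symm
    refine Finset.sum_eq_zero fun j hj => ?_
    have hjm : m ≠ j := by
      have := Finset.mem_range.1 hj
      omega
    rw [coeff_C_mul, coeff_X_pow, if_neg hjm, mul_zero]

theorem eq_coord {n : ℕ} (hn : f.natDegree = n) (b : Fin n → AdjoinRoot f) :
    b = fun i => ∑ j, coord hf b i j • std f n j := by
  rcases subsingleton_or_nontrivial S with hS | hS
  · have : Subsingleton (AdjoinRoot f) := Module.subsingleton S _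
    funext i
    exact Subsingleton.elim _ _
  funext i
  have h1 : AdjoinRoot.mk f (AdjoinRoot.modByMonicHom hf (b i)) = b i :=
    AdjoinRoot.mk_leftInverse hf (b i)
  obtain ⟨Q, hQ⟩ := AdjoinRoot.mk_surjective (b i)
  have h2 : ∀ m, n ≤ m → (AdjoinRoot.modByMonicHom hf (b i)).coeff m = 0 := by
    intro m hm
    rw [← hQ, AdjoinRoot.modByMonicHom_mk]
    refine coeff_eq_zero_of_degree_lt ?_
    refine (degree_modByMonic_lt Q hf).trans_le ?_
    rw [degree_eq_natDegree hf.ne_zero, hn]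
    exact_mod_cast hm
  conv_lhs => rw [← h1, lg_sum_fin _ h2]
  rw [map_sum]
  refine Finset.sum_congr rfl fun j _ => ?_
  rw [map_mul, map_pow, AdjoinRoot.mk_X, AdjoinRoot.mk_C, Algebra.smul_def]
  rfl

theorem coord_std {n : ℕ} (hn : f.natDegree = n) : coord hf (std f n) = 1 := by
  rcases subsingleton_or_nontrivial S with hS | hS
  · exact Subsingleton.elim _ _
  ext i j
  show (AdjoinRoot.modByMonicHom hf (AdjoinRoot.root f ^ (i : ℕ))).coeff j = _
  have h1 : AdjoinRoot.root f ^ (i : ℕ) = AdjoinRoot.mk f (X ^ (i : ℕ)) := by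
    rw [map_pow, AdjoinRoot.mk_X]
  have h2 : (X ^ (i : ℕ) : S[X]) %ₘ f = X ^ (i : ℕ) := by
    rw [modByMonic_eq_self_iff hf, degree_X_pow, degree_eq_natDegree hf.ne_zero, hn]
    exact_mod_cast i.2
  rw [h1, AdjoinRoot.modByMonicHom_mk, h2, coeff_X_pow, Matrix.one_apply]
  by_cases hij : i = j
  · rw [if_pos (by rw [hij]), if_pos hij]
  · rw [if_neg (fun h => hij (Fin.ext h.symm)), if_neg hij]

theorem coord_chb {n : ℕ} (P : Matrix (Fin n) (Fin n) S) (b : Fin n → AdjoinRoot f) :
    coord hf (fun i => ∑ j, P i j • b j) = P * coord hf b := by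
  ext i k
  rw [Matrix.mul_apply]
  show (AdjoinRoot.modByMonicHom hf (∑ j, P i j • b j)).coeff k = _
  rw [map_sum, finsetSum_coeff]
  refine Finset.sum_congr rfl fun j _ => ?_
  rw [map_smul, coeff_smul, smul_eq_mul]
  rfl

/-- The value of the form on a combination of the basis. -/
theorem gram1_form {n : ℕ} (c : AdjoinRoot f) (b : Fin n → AdjoinRoot f) (x y : Fin n → S) :
    tau hf (c * (∑ i, x i • b i) * (∑ i, y i • b i)) = dotProduct x ((gram1 hf c b).mulVec y) := by
  rw [lg_tau_sum]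
  show ∑ l, (∑ j, x j * gram1 hf c b j l) * y l = ∑ j, x j * ∑ l, gram1 hf c b j l * y l
  have h1 : ∀ l, (∑ j, x j * gram1 hf c b j l) * y l = ∑ j, x j * (gram1 hf c b j l * y l) := by
    intro l
    rw [Finset.sum_mul]
    exact Finset.sum_congr rfl fun j _ => mul_assoc _ _ _
  rw [Finset.sum_congr rfl fun l _ => h1 l, Finset.sum_comm]
  exact Finset.sum_congr rfl fun j _ => (Finset.mul_sum _ _ _).symm

end Pool.Agent.HYP
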