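import Pool.Agent.Lib.HYP.L.Norm
import Pool.Agent.Lib.HYP.L.Gram

/-!
Module L.Det of MP_950c68_ag (genus g). The determinant of the Gram matrix and the determinant of the
pencil: `det (x G1 - G2) = det G1 * f (x)`.

PROOF. `gram1_det`: put `n = 2 g + 1`, `P = coord hf b`. By `eq_coord` and `gram1_chb` one has
`gram1 hf c b = P * gram1 hf c (std f n) * Pᵀ`. With `M` the matrix of multiplication by `c`,
`c θ ^ i = Σ_j M i j • θ ^ j` (`M = coord hf (fun i => c * std f n i)`, `eq_coord`), bilinearity gives
`gram1 hf c (std f n) = M * gram1 hf 1 (std f n)`, and `det M = norm c` (the transpose of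
`Algebra.leftMulMatrix` of the power basis `AdjoinRoot.powerBasis' hf`, `Algebra.norm_eq_matrix_det`,
`Matrix.det_transpose`; entries by `AdjoinRoot.powerBasisAux'_repr_apply_to_fun`; reindexing by
`hn : f.natDegree = n`: `subst hn` first and prove the statement for `n = f.natDegree`, with
`(-1) ^ (n (n - 1) / 2)` in place of `(-1) ^ g`).
`A = gram1 hf 1 (std f n)` has entries `τ (θ ^ (i + j))`: `0` if `i + j < n - 1`, `1` if `i + j = n - 1`
(`tau_root_pow`, `tau_root_top`). `A.submatrix id Fin.rev` is lower (or upper) triangular with ones on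
the diagonal, determinant `1` (`Matrix.det_of_upperTriangular`, `det_of_lowerTriangular`), and
`Matrix.det_permute'` with `Fin.revPerm` gives `det A = sign (Fin.revPerm)`, which is
`(-1) ^ (n (n - 1) / 2)` by `Equiv.Perm.sign_eq_prod_prod_Iio` (all factors are `-1`;
`Finset.sum_range_id`). For `n = 2 g + 1`: `n (n - 1) / 2 = g (2 g + 1)`, parity of `g`.
`pencil`: over the ring `S[X]`: `f' = f.map C` is monic, `c' = bc C f c`, `b' i = bc C f (b i)`. The matrix
`X * G1.map C - G2.map C` is `gram1 _ (c' * (algebraMap X - root f')) b'` by `gram1_bc`, `gram2_bc`,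
`gram2_eq` and linearity in the first argument. By `gram1_det` its determinant is
`(-1) ^ g * (coord b').det ^ 2 * norm c' * norm (algebraMap X - root f')`, and
`norm (algebraMap X - root f') = f'.eval X = f` (`norm_sub_root`, `Polynomial.eval_map`,
`eval₂_C_X`), the rest is `C (G1.det)` by `norm_bc`, `coord_bc` (`coord` commutes with base change by
`map_modByMonic`) and `gram1_det` again. (General `n` in the same way.)
-/

set_option autoImplicit false

open Polynomial

namespace Pool.Agent.HYP

variable {S : Type} [CommRing S] {f : S[X]} (hf : f.Monic)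

private theorem sign_rev (n : ℕ) :
    ((Equiv.Perm.sign (Fin.revPerm : Equiv.Perm (Fin n)) : ℤˣ) : ℤ) =
      (-1) ^ (n * (n - 1) / 2) := by
  rw [Equiv.Perm.sign_eq_prod_prod_Iio]
  have h1 : ∀ j : Fin n, (∏ i ∈ Finset.Iio j,
      (if Fin.revPerm i < Fin.revPerm j then (1 : ℤˣ) else -1)) = (-1) ^ (j : ℕ) := by
    intro j
    rw [Finset.prod_congr rfl (g := fun _ => (-1 : ℤˣ))]
    · rw [Finset.prod_const, Fin.card_Iio]
    · intro i hi
      rw [Finset.mem_Iio] at hi
      rw [if_neg]
      simp only [Fin.revPerm_apply, Fin.rev_lt_rev, not_lt]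
      exact hi.le
  rw [Finset.prod_congr rfl fun j _ => h1 j, Finset.prod_pow_eq_pow_sum,
    Fin.sum_univ_eq_sum_range (fun j => j) n, Finset.sum_range_id]
  simp

/-- the determinant of the standard Gram matrix -/
private theorem det_std {n : ℕ} (hn : f.natDegree = n) :
    (gram1 hf 1 (std f n)).det = (-1) ^ (n * (n - 1) / 2) := by
  set A := gram1 hf 1 (std f n) with hA
  have hent : ∀ i j : Fin n, A i j = tau hf (AdjoinRoot.root f ^ ((i : ℕ) + (j : ℕ))) := by
    intro i j
    show tau hf (1 * AdjoinRoot.root f ^ (i : ℕ) * AdjoinRoot.root f ^ (j : ℕ)) = _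
    rw [one_mul, ← pow_add]
  have h1 : (A.submatrix id (Fin.revPerm : Equiv.Perm (Fin n))).det = 1 := by
    rw [Matrix.det_of_isLowerTriangular]
    · refine Finset.prod_eq_one fun i _ => ?_
      rw [Matrix.submatrix_apply, hent]
      have h2 : ((id i : Fin n) : ℕ) + ((Fin.revPerm i : Fin n) : ℕ) = f.natDegree - 1 := by
        simp only [Fin.revPerm_apply, Fin.val_rev, id]
        have := i.2
        omega
      rw [h2]
      exact tau_root_top hf (by have := i.2; omega)
    · intro i j hij
      have hij' : i < j := hij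
      rw [Matrix.submatrix_apply, hent]
      apply tau_root_pow hf
      simp only [Fin.revPerm_apply, Fin.val_rev, id]
      have h3 : (i : ℕ) < (j : ℕ) := hij'
      have := j.2
      omega
  rw [Matrix.det_permute'] at h1
  have h3 : (((Equiv.Perm.sign (Fin.revPerm : Equiv.Perm (Fin n)) : ℤˣ) : ℤ) : S) =
      (-1) ^ (n * (n - 1) / 2) := by
    rw [sign_rev]
    simp
  rw [h3] at h1
  have h4 : ((-1 : S) ^ (n * (n - 1) / 2)) * (-1) ^ (n * (n - 1) / 2) = 1 := by
    rw [← mul_pow, neg_one_mul, neg_neg, one_pow]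
  calc A.det = ((-1 : S) ^ (n * (n - 1) / 2)) * (((-1 : S) ^ (n * (n - 1) / 2)) * A.det) := by
        rw [← mul_assoc, h4, one_mul]
    _ = _ := by rw [h1, mul_one]

/-- the matrix of multiplication by `c` -/
private theorem det_mul (c : AdjoinRoot f) :
    (coord hf (fun i => c * std f f.natDegree i)).det = Algebra.norm S c := by
  rw [Algebra.norm_eq_matrix_det (AdjoinRoot.powerBasisAux' hf) c, ← Matrix.det_transpose]
  congr 1
  ext i j
  rw [Matrix.transpose_apply, Algebra.leftMulMatrix_eq_repr_mul,
    AdjoinRoot.powerBasisAux'_repr_apply_to_fun]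
  show (AdjoinRoot.modByMonicHom hf (c * AdjoinRoot.root f ^ (j : ℕ))).coeff i = _
  have h1 : AdjoinRoot.powerBasisAux' hf j = AdjoinRoot.root f ^ (j : ℕ) :=
    (AdjoinRoot.powerBasis' hf).basis_eq_pow j
  rw [h1]

private theorem gram1_det_gen {n : ℕ} (hn : f.natDegree = n) (c : AdjoinRoot f)
    (b : Fin n → AdjoinRoot f) :
    (gram1 hf c b).det = (-1) ^ (n * (n - 1) / 2) * (coord hf b).det ^ 2 * Algebra.norm S c := by
  have h1 : gram1 hf c b = coord hf b * gram1 hf c (std f n) * (coord hf b).transpose := by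
    conv_lhs => rw [eq_coord hf hn b]
    exact gram1_chb hf c (std f n) (coord hf b)
  have h2 : gram1 hf c (std f n) = coord hf (fun i => c * std f n i) * gram1 hf 1 (std f n) := by
    refine Matrix.ext fun i l => ?_
    rw [Matrix.mul_apply]
    show tau hf (c * std f n i * std f n l) = _
    have h3 : c * std f n i = ∑ j, coord hf (fun i => c * std f n i) i j • std f n j :=
      congrFun (eq_coord hf hn (fun i => c * std f n i)) i
    rw [h3, Finset.sum_mul, map_sum]
    refine Finset.sum_congr rfl fun j _ => ?_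
    rw [smul_mul_assoc, map_smul, smul_eq_mul]
    show _ = _ * tau hf (1 * std f n j * std f n l)
    rw [one_mul]
  have h3 : (coord hf (fun i => c * std f n i)).det = Algebra.norm S c := by
    subst hn
    exact det_mul hf c
  rw [h1, Matrix.det_mul, Matrix.det_mul, Matrix.det_transpose, h2, Matrix.det_mul, h3,
    det_std hf hn]
  ring

theorem gram1_det {g : ℕ} (hn : f.natDegree = 2 * g + 1) (c : AdjoinRoot f)
    (b : Fin (2 * g + 1) → AdjoinRoot f) :
    (gram1 hf c b).det = (-1) ^ g * (coord hf b).det ^ 2 * Algebra.norm S c := by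
  have h := gram1_det_gen hf hn c b
  have h1 : (2 * g + 1) * (2 * g + 1 - 1) / 2 = (2 * g + 1) * g := by
    rw [Nat.add_sub_cancel]
    have : (2 * g + 1) * (2 * g) = 2 * ((2 * g + 1) * g) := by ring
    rw [this]
    exact Nat.mul_div_cancel_left _ (by norm_num)
  have h2 : (-1 : S) ^ (2 * g + 1) = -1 := Odd.neg_one_pow ⟨g, rfl⟩
  rw [h1, pow_mul, h2] at h
  exact h

private theorem coord_bc {T : Type} [CommRing T] (φ : S →+* T) {n : ℕ}
    (b : Fin n → AdjoinRoot f) :
    coord (hf.map φ) (fun i => bc φ f (b i)) = (coord hf b).map φ := by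
  ext i j
  show (AdjoinRoot.modByMonicHom (hf.map φ) (bc φ f (b i))).coeff j =
    φ ((AdjoinRoot.modByMonicHom hf (b i)).coeff j)
  obtain ⟨P, hP⟩ := AdjoinRoot.mk_surjective (b i)
  rw [← hP, bc_mk, AdjoinRoot.modByMonicHom_mk, AdjoinRoot.modByMonicHom_mk,
    ← Polynomial.map_modByMonic φ hf, Polynomial.coeff_map]

private theorem pencil_gen {n : ℕ} (hn : f.natDegree = n) (c : AdjoinRoot f)
    (b : Fin n → AdjoinRoot f) :
    ((Matrix.scalar (Fin n) (X : S[X])) * (gram1 hf c b).map C -
      (gram2 hf c b).map C).det = C (gram1 hf c b).det * f := by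
  rcases subsingleton_or_nontrivial S with hs | hs
  · exact Subsingleton.elim _ _
  set f' : S[X][X] := f.map C with hf'
  have hm' : f'.Monic := hf.map C
  have hn' : f'.natDegree = n := by rw [hf', hf.natDegree_map, hn]
  set b' : Fin n → AdjoinRoot f' := fun i => bc C f (b i) with hb'
  have h1 : (Matrix.scalar (Fin n) (X : S[X])) * (gram1 hf c b).map C - (gram2 hf c b).map C =
      gram1 hm' ((algebraMap S[X] (AdjoinRoot f') X - AdjoinRoot.root f') * bc C f c) b' := by
    rw [← gram1_bc hf C c b, ← gram2_bc hf C c b]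
    refine Matrix.ext fun i j => ?_
    rw [Matrix.sub_apply, Matrix.scalar_apply, Matrix.diagonal_mul]
    show X * tau hm' (bc C f c * b' i * b' j) -
      tau hm' (AdjoinRoot.root f' * bc C f c * b' i * b' j) =
      tau hm' ((algebraMap S[X] (AdjoinRoot f') X - AdjoinRoot.root f') * bc C f c * b' i * b' j)
    rw [sub_mul, sub_mul, sub_mul, map_sub]
    congr 1
    rw [mul_assoc (algebraMap S[X] (AdjoinRoot f') X), mul_assoc (algebraMap S[X] (AdjoinRoot f') X),
      ← Algebra.smul_def, map_smul, smul_eq_mul]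
  rw [h1, gram1_det_gen hm' hn', gram1_det_gen hf hn, map_mul (Algebra.norm S[X]),
    norm_sub_root hm', norm_bc hf, coord_bc hf C b]
  have h2 : f'.eval X = f := by
    rw [hf', Polynomial.eval_map]
    exact Polynomial.eval₂_C_X
  have h3 : ((coord hf b).map C).det = C (coord hf b).det :=
    (RingHom.map_det C (coord hf b)).symm
  rw [h2, h3]
  simp only [map_mul, map_pow, map_neg, map_one]
  ring

theorem pencil {g : ℕ} (hn : f.natDegree = 2 * g + 1) (c : AdjoinRoot f)
    (b : Fin (2 * g + 1) → AdjoinRoot f) :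
    ((Matrix.scalar (Fin (2 * g + 1)) (X : S[X])) * (gram1 hf c b).map C -
      (gram2 hf c b).map C).det = C (gram1 hf c b).det * f :=
  pencil_gen hf hn c b

/-- Even degree (for the factor of degree `2 g`). -/
theorem gram1_det_even {g : ℕ} (hn : f.natDegree = 2 * g) (c : AdjoinRoot f)
    (b : Fin (2 * g) → AdjoinRoot f) :
    (gram1 hf c b).det = (-1) ^ g * (coord hf b).det ^ 2 * Algebra.norm S c := by
  have h := gram1_det_gen hf hn c b
  have h1 : (-1 : S) ^ (2 * g * (2 * g - 1) / 2) = (-1) ^ g := by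
    rcases Nat.eq_zero_or_pos g with h0 | h0
    · subst h0
      simp
    · have h2 : 2 * g * (2 * g - 1) / 2 = (2 * g - 1) * g := by
        have : 2 * g * (2 * g - 1) = 2 * ((2 * g - 1) * g) := by ring
        rw [this]
        exact Nat.mul_div_cancel_left _ (by norm_num)
      have h3 : (-1 : S) ^ (2 * g - 1) = -1 := Odd.neg_one_pow ⟨g - 1, by omega⟩
      rw [h2, pow_mul, h3]
  rw [h1] at h
  exact h

end Pool.Agent.HYP
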