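import Pool.Agent.Lib.HYP.L.Tau

/-!
Module L.Norm of MP_950c68_ag (genus g). The norm on `S[θ] = AdjoinRoot f`, `f` monic.

PROOF. The basis `1, θ, …, θ ^ (n - 1)`: `AdjoinRoot.powerBasis' hf`;
`Algebra.norm_eq_matrix_det (AdjoinRoot.powerBasis' hf).basis c`, `Algebra.leftMulMatrix`.
`norm_bc`: the matrix of multiplication by `bc φ f c` in the power basis of `AdjoinRoot (f.map φ)` is
the image under `φ` of the matrix of multiplication by `c` (entries: coefficient `i` of
`(P * X ^ j) %ₘ f` if `c = mk f P`; `map_modByMonic`), up to the index types `Fin f.natDegree`,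
`Fin (f.map φ).natDegree` (equal numbers by `Monic.natDegree_map` if `T` is nontrivial: reindex; if
`T` is trivial both sides are equal); `RingHom.map_det`. Alternatively
`Algebra.norm_localization`-like lemmas or `Algebra.norm_eq_of_algEquiv` with
`AdjoinRoot (f.map φ) ≃ T ⊗ AdjoinRoot f` and `Algebra.norm_baseChange`, whichever is shorter.
`isUnit_of_norm`: if the determinant of multiplication by `c` is a unit then this map is bijective
(`LinearMap.isUnit_iff_isUnit_det` or `Matrix` inverse), so there is `c'` with `c * c' = 1`.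
Conversely `IsUnit.map (Algebra.norm S)`.
`norm_sub_root`: `Algebra.norm (x - θ)` is the value at `x` of the characteristic polynomial of
multiplication by `θ` (`Matrix.eval_charpoly`-like: `det (x - M)`), which is `f`: the companion
matrix; or `charpoly_leftMulMatrix` (= `minpoly S θ`) and `minpoly = f` (for a monic `f` over any
commutative ring: `minpoly` divides... use the version over a domain if necessary after proving it for
the universal case; simplest: let `N x = Algebra.norm (x - θ)`; the matrix of multiplication by `θ` is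
the companion matrix, expand the determinant along the last column by
`Matrix.det_succ_column`/induction, or: both `charpoly` and `f` are monic of degree `n`, and
`charpoly (θ) = 0` by Cayley-Hamilton (`LinearMap.aeval_self_charpoly`), so `f ∣ charpoly`
(`AdjoinRoot.mk_eq_zero`: `aeval θ charpoly = mk f charpoly = 0`), two monic polynomials of the same
degree, one dividing the other, are equal).
-/

set_option autoImplicit false

open Polynomial

namespace Pool.Agent.HYP

variable {S : Type} [CommRing S] {f : S[X]}

private theorem nm_entry (hf : f.Monic) (c : AdjoinRoot f) (i j : Fin f.natDegree) :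
    Algebra.leftMulMatrix (AdjoinRoot.powerBasis' hf).basis c i j =
      (AdjoinRoot.modByMonicHom hf (c * AdjoinRoot.root f ^ (j : ℕ))).coeff i := by
  have h1 := Algebra.leftMulMatrix_eq_repr_mul (AdjoinRoot.powerBasis' hf).basis c i j
  rw [h1, (AdjoinRoot.powerBasis' hf).basis_eq_pow]
  rfl

private theorem nm_mod_bc (hf : f.Monic) {T : Type} [CommRing T] (φ : S →+* T)
    (x : AdjoinRoot f) :
    AdjoinRoot.modByMonicHom (hf.map φ) (bc φ f x) = (AdjoinRoot.modByMonicHom hf x).map φ := by
  obtain ⟨P, rfl⟩ := AdjoinRoot.mk_surjective x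
  rw [bc_mk, AdjoinRoot.modByMonicHom_mk, AdjoinRoot.modByMonicHom_mk, map_modByMonic φ hf]

theorem norm_bc (hf : f.Monic) {T : Type} [CommRing T] (φ : S →+* T) (c : AdjoinRoot f) :
    Algebra.norm T (bc φ f c) = φ (Algebra.norm S c) := by
  classical
  rcases subsingleton_or_nontrivial T with hT | hT
  · exact Subsingleton.elim _ _
  have hd : (f.map φ).natDegree = f.natDegree := hf.natDegree_map φ
  rw [Algebra.norm_eq_matrix_det (AdjoinRoot.powerBasis' hf).basis,
    Algebra.norm_eq_matrix_det (AdjoinRoot.powerBasis' (hf.map φ)).basis, RingHom.map_det]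
  have key : ∀ (M : Matrix (Fin (f.map φ).natDegree) (Fin (f.map φ).natDegree) T)
      (N : Matrix (Fin f.natDegree) (Fin f.natDegree) T),
      M.submatrix (finCongr hd.symm) (finCongr hd.symm) = N → M.det = N.det := by
    intro M N h
    rw [← h, Matrix.det_submatrix_equiv_self]
  apply key
  ext i j
  have h1 := nm_entry hf c i j
  have h2 := nm_entry (hf.map φ) (bc φ f c) (finCongr hd.symm i) (finCongr hd.symm j)
  simp only [Matrix.submatrix_apply, RingHom.mapMatrix_apply, Matrix.map_apply]
  refine h2.trans ?_
  rw [h1]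
  have h3 : bc φ f c * AdjoinRoot.root (f.map φ) ^ ((finCongr hd.symm j : Fin _) : ℕ) =
      bc φ f (c * AdjoinRoot.root f ^ (j : ℕ)) := by
    rw [map_mul, map_pow, bc_root]
    rfl
  rw [h3, nm_mod_bc hf, coeff_map]
  rfl

theorem isUnit_iff_norm (hf : f.Monic) (c : AdjoinRoot f) :
    IsUnit c ↔ IsUnit (Algebra.norm S c) := by
  constructor
  · intro h
    exact h.map (Algebra.norm S)
  · intro h
    have := hf.free_adjoinRoot
    have := hf.finite_adjoinRoot
    rw [Algebra.norm_apply, ← LinearMap.isUnit_iff_isUnit_det] at h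
    obtain ⟨u, hu⟩ := h
    have h1 : c * ((↑u⁻¹ : AdjoinRoot f →ₗ[S] AdjoinRoot f) 1) = 1 := by
      have h2 : ((↑u : AdjoinRoot f →ₗ[S] AdjoinRoot f) * ↑u⁻¹) 1 = 1 := by
        rw [Units.mul_inv]; rfl
      rw [Module.End.mul_apply, hu] at h2
      exact h2
    exact IsUnit.of_mul_eq_one _ h1

theorem norm_sub_root (hf : f.Monic) (x : S) :
    Algebra.norm S (algebraMap S (AdjoinRoot f) x - AdjoinRoot.root f) = f.eval x := by
  rcases subsingleton_or_nontrivial S with hS | hS
  · exact Subsingleton.elim _ _
  have := hf.free_adjoinRoot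
  have := hf.finite_adjoinRoot
  set A : AdjoinRoot f →ₗ[S] AdjoinRoot f := Algebra.lmul S (AdjoinRoot f) (AdjoinRoot.root f) with hA
  have h1 : f = A.charpoly := by
    symm
    apply eq_of_monic_of_dvd_of_natDegree_le hf A.charpoly_monic
    · rw [← AdjoinRoot.mk_eq_zero, ← AdjoinRoot.aeval_eq]
      have h2 := A.aeval_self_charpoly
      have h3 : aeval A A.charpoly =
          Algebra.lmul S (AdjoinRoot f) (aeval (AdjoinRoot.root f) A.charpoly) :=
        aeval_algHom_apply (Algebra.lmul S (AdjoinRoot f)) (AdjoinRoot.root f) A.charpoly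
      rw [h3] at h2
      have h4 := congrArg (fun g : AdjoinRoot f →ₗ[S] AdjoinRoot f => g 1) h2
      simpa using h4
    · rw [LinearMap.charpoly_natDegree, (AdjoinRoot.powerBasis' hf).finrank]
      rfl
  conv_rhs => rw [h1]
  rw [LinearMap.eval_charpoly, Algebra.norm_apply]
  congr 1
  rw [map_sub, hA]
  congr 1
  ext y
  simp [Algebra.smul_def]

theorem norm_const (hf : f.Monic) (x : S) :
    Algebra.norm S (algebraMap S (AdjoinRoot f) x) = x ^ f.natDegree := by
  rw [Algebra.norm_algebraMap_of_basis (AdjoinRoot.powerBasis' hf).basis, Fintype.card_fin]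
  rfl

end Pool.Agent.HYP
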