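import Pool.Agent.Lib.HYP.L.Gram

/-!
Module L.Sq of MP_950c68_ag (genus g). Split forms.

PROOF. `split_mul_sq`: if `W` is totally isotropic for `c y ^ 2`, then `y W` (image of `W` under
multiplication by `y`, `Submodule.map` of `LinearMap.mulLeft F y`, injective because `y` is a unit,
`LinearMap.finrank_map_eq`-like lemma / `Submodule.equivMapOfInjective`) is totally isotropic for `c`;
apply this to `y` and to its inverse. `split_smul`: the same `W`, `τ (a c l l') = a τ (c l l')`.
`split_iff_splitM`: `b` is a basis (`B`), `x ↦ Σ x_i b_i` is a linear isomorphism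
(`B.equivFun.symm`) which carries `x (G1 y)` to `τ (c l l')` (`gram1_form`); images of subspaces.
`splitM_map`: `W` over `F` with basis `w_1, …, w_g`; the vectors `φ ∘ w_i` over `F'` are linearly
independent (`LinearIndependent.map_of_...`; the matrix with rows `w_i` has a nonzero `g × g` minor, or
`LinearIndependent` over a field extension: `Matrix.rank_map`-like, or complete `w` to a basis of
`F ^ n`, whose matrix is invertible and stays invertible) and span a totally isotropic subspace.
-/

set_option autoImplicit false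

open Polynomial

namespace Pool.Agent.HYP

variable {F : Type} [Field F]

private theorem split_aux {f : F[X]} (hf : f.Monic) (g : ℕ) (c y y' : AdjoinRoot f)
    (h1 : y * y' = 1) (h : Split hf g (c * y ^ 2)) : Split hf g c := by
  obtain ⟨W, hW, hiso⟩ := h
  let e : AdjoinRoot f ≃ₗ[F] AdjoinRoot f :=
    LinearEquiv.ofLinear (LinearMap.mulLeft F y) (LinearMap.mulLeft F y')
      (by
        refine LinearMap.ext fun x => ?_
        change y * (y' * x) = x
        rw [← mul_assoc, h1, one_mul])
      (by
        refine LinearMap.ext fun x => ?_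
        change y' * (y * x) = x
        rw [← mul_assoc, mul_comm y' y, h1, one_mul])
  refine ⟨W.map (e : AdjoinRoot f →ₗ[F] AdjoinRoot f), ?_, ?_⟩
  · rw [LinearEquiv.finrank_map_eq]
    exact hW
  · rintro _ ⟨l, hl, rfl⟩ _ ⟨l', hl', rfl⟩
    have h2 := hiso l hl l' hl'
    have h3 : c * y ^ 2 * l * l' = c * (y * l) * (y * l') := by ring
    rw [h3] at h2
    exact h2

theorem split_mul_sq {f : F[X]} (hf : f.Monic) (g : ℕ) (c y : AdjoinRoot f) (hy : IsUnit y) :
    Split hf g (c * y ^ 2) ↔ Split hf g c := by
  obtain ⟨y', h1⟩ := hy.exists_right_inv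
  constructor
  · exact split_aux hf g c y y' h1
  · intro h
    refine split_aux hf g (c * y ^ 2) y' y (by rw [mul_comm, h1]) ?_
    have h2 : c * y ^ 2 * y' ^ 2 = c := by
      rw [mul_assoc, ← mul_pow, h1, one_pow, mul_one]
    rw [h2]
    exact h

theorem split_smul {f : F[X]} (hf : f.Monic) (g : ℕ) (c : AdjoinRoot f) {a : F} (ha : a ≠ 0) :
    Split hf g (a • c) ↔ Split hf g c := by
  have key : ∀ l l' : AdjoinRoot f, tau hf (a • c * l * l') = a * tau hf (c * l * l') := by
    intro l l'
    rw [smul_mul_assoc, smul_mul_assoc, map_smul, smul_eq_mul]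
  constructor
  · rintro ⟨W, hW, h⟩
    refine ⟨W, hW, fun l hl l' hl' => ?_⟩
    have h1 := h l hl l' hl'
    rw [key] at h1
    exact (mul_eq_zero.1 h1).resolve_left ha
  · rintro ⟨W, hW, h⟩
    refine ⟨W, hW, fun l hl l' hl' => ?_⟩
    rw [key, h l hl l' hl', mul_zero]

theorem split_iff_splitM {f : F[X]} (hf : f.Monic) (g : ℕ) {n : ℕ} (c : AdjoinRoot f)
    (B : Module.Basis (Fin n) F (AdjoinRoot f)) :
    Split hf g c ↔ SplitM g (gram1 hf c (fun i => B i)) := by
  constructor
  · rintro ⟨W, hW, h⟩
    refine ⟨W.map (B.equivFun : AdjoinRoot f →ₗ[F] (Fin n → F)), ?_, ?_⟩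
    · rw [LinearEquiv.finrank_map_eq]
      exact hW
    · rintro _ ⟨l, hl, rfl⟩ _ ⟨l', hl', rfl⟩
      have h1 := gram1_form hf c (fun i => B i) (B.equivFun l) (B.equivFun l')
      rw [B.sum_equivFun, B.sum_equivFun, h l hl l' hl'] at h1
      exact h1.symm
  · rintro ⟨W, hW, h⟩
    refine ⟨W.map (B.equivFun.symm : (Fin n → F) →ₗ[F] AdjoinRoot f), ?_, ?_⟩
    · rw [LinearEquiv.finrank_map_eq]
      exact hW
    · rintro _ ⟨x, hx, rfl⟩ _ ⟨y, hy, rfl⟩
      have h1 := gram1_form hf c (fun i => B i) x y
      rw [h x hx y hy] at h1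
      change tau hf (c * B.equivFun.symm x * B.equivFun.symm y) = 0
      rw [B.equivFun_symm_apply, B.equivFun_symm_apply]
      exact h1

theorem splitM_map {F' : Type} [Field F'] (φ : F →+* F') (g : ℕ) {n : ℕ}
    (G : Matrix (Fin n) (Fin n) F) (h : SplitM g G) : SplitM g (G.map φ) := by
  obtain ⟨W, hW, hiso⟩ := h
  let b : Module.Basis (Fin g) F W := Module.finBasisOfFinrankEq F W hW
  let M : Matrix (Fin g) (Fin n) F := Matrix.of fun i => (b i : Fin n → F)
  have hli : LinearIndependent F M.row := by
    have h1 := b.linearIndependent.map' W.subtype (Submodule.ker_subtype W)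
    exact h1
  have hrank : M.rank = g := by
    have := hli.rank_matrix
    rwa [Fintype.card_fin] at this
  have hsurj : Function.Surjective M.mulVec := by
    have h1 : LinearMap.range M.mulVecLin = ⊤ := by
      apply Submodule.eq_top_of_finrank_eq
      rw [Module.finrank_fin_fun]
      exact hrank
    exact LinearMap.range_eq_top.1 h1
  obtain ⟨N, hN⟩ := Matrix.mulVec_surjective_iff_exists_right_inverse.1 hsurj
  have hMN : (M.map φ) * (N.map φ) = 1 := by
    rw [← Matrix.map_mul, hN, Matrix.map_one _ (map_zero φ) (map_one φ)]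
  have hli' : LinearIndependent F' (M.map φ).row := by
    rw [← Matrix.vecMul_injective_iff]
    intro x y hxy
    have h1 := congrArg (fun v => Matrix.vecMul v (N.map φ)) hxy
    simp only [Matrix.vecMul_vecMul, hMN, Matrix.vecMul_one] at h1
    exact h1
  refine ⟨Submodule.span F' (Set.range (M.map φ).row), ?_, ?_⟩
  · rw [finrank_span_eq_card hli', Fintype.card_fin]
  · intro x hx y hy
    induction hx, hy using Submodule.span_induction₂ with
    | mem_mem x y hx hy =>
      obtain ⟨i, rfl⟩ := hx
      obtain ⟨j, rfl⟩ := hy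
      have h1 := congrArg φ (hiso _ (b i).2 _ (b j).2)
      rw [RingHom.map_dotProduct, map_zero] at h1
      have h2 : (fun a => φ ((G.mulVec (b j : Fin n → F)) a)) =
          (G.map φ).mulVec (fun a => φ ((b j : Fin n → F) a)) := by
        funext a
        exact RingHom.map_mulVec φ G _ a
      change dotProduct (fun a => φ ((b i : Fin n → F) a)) _ = 0 at h1
      change dotProduct (fun a => φ ((b i : Fin n → F) a))
        ((G.map φ).mulVec (fun a => φ ((b j : Fin n → F) a))) = 0
      rw [← h2]
      exact h1
    | zero_left y hy => exact zero_dotProduct _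
    | zero_right x hx => rw [Matrix.mulVec_zero, dotProduct_zero]
    | add_left x y z hx hy hz h1 h2 => rw [add_dotProduct, h1, h2, add_zero]
    | add_right x y z hx hy hz h1 h2 => rw [Matrix.mulVec_add, dotProduct_add, h1, h2, add_zero]
    | smul_left r x y hx hy h1 => rw [smul_dotProduct, h1, smul_zero]
    | smul_right r x y hx hy h1 => rw [Matrix.mulVec_smul, dotProduct_smul, h1, smul_zero]

end Pool.Agent.HYP
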