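import Pool.Agent.Lib.HYP.L.Tau
import Pool.Agent.Lib.HYP.L.Sq
import Pool.Agent.Lib.HYP.L.Det

/-!
Module L.Split12 (section 10, C1 and C2). The form `l ↦ τ (c l²)` is split if `c` is the image of a
point of the Jacobian; the same for `c T`, `T = h (θ) - (θ - ξ)`, if `f = (x - ξ) h`.

`c = (-1) ^ r U (θ) y²`, `deg V < r`, `V² - f = U W`. (C1) `l = (a V + b U) (θ) / (U (θ) y)`,
`deg a < [r / 2]`, `deg b < [(2 g + 1 - r) / 2]`:
`c l l' = ± (a a' W + (a b' + a' b) V + b b' U) (θ)`, a polynomial of degree `< 2 g`. (C2) `U' = (x - ξ) U`, `V' = V mod U`, `V' = (x - ξ) V''`,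
`V'² - f = U' W'`, `ε = h (θ) / h (ξ)` the idempotent at `ξ`,
`l = ((a V'' + b U) (θ) (1 - ε) + a (θ) ε) / (U (θ) y)`.
-/

set_option autoImplicit false

open Polynomial

namespace Pool.Agent.HYP

variable {F : Type} [Field F]

private theorem coeff_zero_of {m₁ m₂ d N : ℕ} {a b W : F[X]} (ha : a ∈ degreeLT F m₁)
    (hb : b ∈ degreeLT F m₂) (hW : W.natDegree ≤ d) (h : m₁ + m₂ + d ≤ N + 1) :
    (a * b * W).coeff N = 0 := by
  by_cases ha0 : a = 0
  · rw [ha0, zero_mul, zero_mul, coeff_zero]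
  by_cases hb0 : b = 0
  · rw [hb0, mul_zero, zero_mul, coeff_zero]
  rw [mem_degreeLT, degree_eq_natDegree ha0, Nat.cast_lt] at ha
  rw [mem_degreeLT, degree_eq_natDegree hb0, Nat.cast_lt] at hb
  refine coeff_eq_zero_of_natDegree_lt ?_
  have h1 := natDegree_mul_le (p := a * b) (q := W)
  have h2 := natDegree_mul_le (p := a) (q := b)
  omega

private theorem natDegree_of_mem {m : ℕ} {a : F[X]} (ha : a ∈ degreeLT F m) : a.natDegree ≤ m := by
  by_cases ha0 : a = 0
  · rw [ha0, natDegree_zero]; exact Nat.zero_le _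
  rw [mem_degreeLT, degree_eq_natDegree ha0, Nat.cast_lt] at ha
  exact ha.le

private theorem finrank_degreeLT (m : ℕ) : Module.finrank F (degreeLT F m) = m := by
  rw [(degreeLTEquiv F m).finrank_eq, Module.finrank_fin_fun]

private instance (m : ℕ) : FiniteDimensional F (degreeLT F m) :=
  Module.Finite.equiv (degreeLTEquiv F m).symm

/-- The common part. -/
private theorem split_core {f : F[X]} (hf : f.Monic) {g : ℕ} (hn : f.natDegree = 2 * g + 1)
    {r : ℕ} (hr : r ≤ g + 1) {U V W : F[X]} (hU : U.natDegree ≤ r) (hV : V.natDegree ≤ r - 1)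
    (hW : W.natDegree ≤ 2 * g + 1 - r) (s : F) {c : AdjoinRoot f}
    (Φ : (degreeLT F (r / 2) × degreeLT F ((2 * g + 1 - r) / 2)) →ₗ[F] AdjoinRoot f)
    (hΦ : Function.Injective Φ)
    (hc : ∀ x y, c * Φ x * Φ y = s • AdjoinRoot.mk f ((x.1 : F[X]) * y.1 * W +
      ((x.1 : F[X]) * y.2 + y.1 * x.2) * V + x.2 * y.2 * U)) : Split hf g c := by
  refine ⟨LinearMap.range Φ, ?_, ?_⟩
  · rw [LinearMap.finrank_range_of_inj hΦ, Module.finrank_prod, finrank_degreeLT,
      finrank_degreeLT]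
    omega
  · rintro _ ⟨x, rfl⟩ _ ⟨y, rfl⟩
    rw [hc, map_smul]
    have key : ∀ N, 2 * g ≤ N → ((x.1 : F[X]) * y.1 * W +
      ((x.1 : F[X]) * y.2 + y.1 * x.2) * V + x.2 * y.2 * U).coeff N = 0 := by
      intro N hN
      rw [coeff_add, coeff_add, add_mul, coeff_add,
        coeff_zero_of x.1.2 y.1.2 hW (by omega), coeff_zero_of x.1.2 y.2.2 hV (by omega),
        coeff_zero_of y.1.2 x.2.2 hV (by omega), coeff_zero_of x.2.2 y.2.2 hU (by omega)]
      simp
    rw [tau_mk_lt, hn]
    · rw [show 2 * g + 1 - 1 = 2 * g by omega, key _ le_rfl, smul_zero]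
    · rw [hn, Nat.lt_succ_iff, natDegree_le_iff_coeff_eq_zero]
      intro N hN
      exact key N hN.le

private theorem mumford_red {f : F[X]} {g : ℕ} (hn : f.natDegree = 2 * g + 1)
    {U V : F[X]} (hU : U.Monic) (hd : U ∣ V ^ 2 - f) {r : ℕ} (hr : U.natDegree = r)
    (hrg : r ≤ g + 1) (hV : V.natDegree ≤ r - 1) :
    ∃ W : F[X], V ^ 2 - f = U * W ∧ W.natDegree ≤ 2 * g + 1 - r := by
  obtain ⟨W, hW⟩ := hd
  refine ⟨W, hW, ?_⟩
  have h1 : (V ^ 2 - f).natDegree ≤ 2 * g + 1 := by
    refine (natDegree_sub_le _ _).trans (max_le ?_ hn.le)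
    refine (natDegree_pow_le).trans ?_
    omega
  by_cases hW0 : W = 0
  · rw [hW0, natDegree_zero]; exact Nat.zero_le _
  rw [hW, hU.natDegree_mul' hW0, hr] at h1
  omega

/-- **(C1)** -/
theorem split_of_image (h2 : (2 : F) ≠ 0) {f : F[X]} (hf : f.Monic) {g : ℕ}
    (hn : f.natDegree = 2 * g + 1) {c : AdjoinRoot f} (h : Image f g c) : Split hf g c := by
  obtain ⟨U, V₀, hM, y, hy, hcy⟩ := h
  set r := U.natDegree with hr
  have hrg : r ≤ g := hM.deg
  set V := V₀ %ₘ U with hV
  have hVU : U ∣ V ^ 2 - f := by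
    have h1 : V = V₀ - U * (V₀ /ₘ U) := by
      rw [hV]; exact modByMonic_eq_sub_mul_div V₀ U
    have h2 : V ^ 2 - f = (V₀ ^ 2 - f) - U * ((V₀ /ₘ U) * (V₀ + V)) := by rw [h1]; ring
    rw [h2]
    exact dvd_sub hM.dvd (dvd_mul_right _ _)
  have hVd : V.degree < U.degree := degree_modByMonic_lt V₀ hM.monic
  have hVn : V.natDegree ≤ r - 1 := by
    by_cases hV0 : V = 0
    · rw [hV0, natDegree_zero]; exact Nat.zero_le _
    · have := natDegree_lt_natDegree hV0 hVd
      omega
  obtain ⟨W, hW, hWd⟩ := mumford_red hn hM.monic hVU hr.symm (by omega) hVn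
  have hUu : IsUnit (AdjoinRoot.mk f U) := by
    obtain ⟨s, t, hst⟩ := hM.cop
    have h1 := congrArg (AdjoinRoot.mk f) hst
    rw [map_add, map_mul, map_mul, AdjoinRoot.mk_self, mul_zero, add_zero, map_one] at h1
    exact IsUnit.of_mul_eq_one_right _ h1
  obtain ⟨z, hz⟩ := (hUu.mul hy).exists_right_inv
  have hzu : IsUnit z := IsUnit.of_mul_eq_one_right _ hz
  let Φ : (degreeLT F (r / 2) × degreeLT F ((2 * g + 1 - r) / 2)) →ₗ[F] AdjoinRoot f :=
    { toFun := fun x => AdjoinRoot.mk f ((x.1 : F[X]) * V + x.2 * U) * z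
      map_add' := fun x y => by
        simp only [Prod.fst_add, Prod.snd_add, Submodule.coe_add, map_add, map_mul]
        ring
      map_smul' := fun s x => by
        simp only [Prod.smul_fst, Prod.smul_snd, Submodule.coe_smul, RingHom.id_apply]
        rw [← smul_mul_assoc, AdjoinRoot.smul_mk, smul_add, smul_mul_assoc, smul_mul_assoc] }
  have hΦx : ∀ x, Φ x = AdjoinRoot.mk f ((x.1 : F[X]) * V + x.2 * U) * z := fun x => rfl
  have hUV : IsCoprime U V := by
    have h1 : IsCoprime U (V ^ 2) := by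
      have h2 : V ^ 2 = f + U * W := by rw [← hW]; ring
      rw [h2, IsCoprime.add_mul_left_right_iff]
      exact hM.cop
    exact (IsCoprime.pow_right_iff (by norm_num)).mp h1
  have hinj : Function.Injective Φ := by
    rw [← LinearMap.ker_eq_bot, LinearMap.ker_eq_bot']
    rintro ⟨a, b⟩ h0
    rw [hΦx] at h0
    have h1 : AdjoinRoot.mk f ((a : F[X]) * V + b * U) = 0 := by
      have := congrArg (fun t => t * (AdjoinRoot.mk f U * y)) h0
      simp only [zero_mul, mul_assoc] at this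
      rwa [mul_comm z, hz, mul_one] at this
    rw [AdjoinRoot.mk_eq_zero] at h1
    have ha := natDegree_of_mem a.2
    have hb := natDegree_of_mem b.2
    have h2 : (a : F[X]) * V + b * U = 0 := by
      refine eq_zero_of_dvd_of_natDegree_lt h1 ?_
      rw [hn]
      refine (natDegree_add_le _ _).trans_lt (max_lt ?_ ?_)
      · refine natDegree_mul_le.trans_lt ?_
        omega
      · refine natDegree_mul_le.trans_lt ?_
        omega
    have h3 : U ∣ (a : F[X]) := by
      refine hUV.dvd_of_dvd_mul_right ?_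
      exact ⟨-b, by linear_combination h2⟩
    have h4 : (a : F[X]) = 0 := by
      by_contra ha0
      have h5 := natDegree_le_of_dvd h3 ha0
      have h6 := a.2
      rw [mem_degreeLT, degree_eq_natDegree ha0, Nat.cast_lt] at h6
      omega
    rw [h4, zero_mul, zero_add] at h2
    have h5 := (mul_eq_zero.mp h2).resolve_right hM.monic.ne_zero
    exact Prod.ext (Subtype.ext h4) (Subtype.ext h5)
  refine split_core hf hn (by omega) hr.ge hVn hWd ((-1) ^ r) Φ hinj ?_
  intro x x'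
  rw [hΦx, hΦx, hcy]
  have hw : AdjoinRoot.mk f U * AdjoinRoot.mk f W = AdjoinRoot.mk f V ^ 2 := by
    have h1 := congrArg (AdjoinRoot.mk f) hW
    rw [map_sub, map_mul, AdjoinRoot.mk_self, sub_zero, map_pow] at h1
    exact h1.symm
  have hs : ∀ t : AdjoinRoot f, ((-1 : F) ^ r) • t = (-1) ^ r * t := by
    intro t
    rw [Algebra.smul_def, map_pow, map_neg, map_one]
  rw [hs]
  simp only [map_add, map_mul]
  set u := AdjoinRoot.mk f U
  set v := AdjoinRoot.mk f V
  set w := AdjoinRoot.mk f W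
  set A := AdjoinRoot.mk f (x.1 : F[X])
  set B := AdjoinRoot.mk f (x.2 : F[X])
  set A' := AdjoinRoot.mk f (x'.1 : F[X])
  set B' := AdjoinRoot.mk f (x'.2 : F[X])
  have h1 : (-1) ^ r * u * y ^ 2 * ((A * v + B * u) * z) * ((A' * v + B' * u) * z) =
      (-1) ^ r * (u * y * z) ^ 2 * (A * A' * w + (A * B' + A' * B) * v + B * B' * u) := by
    linear_combination (-((-1) ^ r * u * y ^ 2 * z ^ 2 * A * A')) * hw
  rw [h1, hz]
  ring

/-- **(C2)** -/
theorem split_of_image_mul {f : F[X]} (hf : f.Monic) {g : ℕ} (hn : f.natDegree = 2 * g + 1)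
    {ξ : F} {h : F[X]} (hfac : f = (X - C ξ) * h) (hξ : h.eval ξ ≠ 0)
    {c : AdjoinRoot f} (hc : Image f g c) :
    Split hf g (c * (AdjoinRoot.mk f h - (AdjoinRoot.root f - algebraMap F _ ξ))) := by
  obtain ⟨U, V₀, hM, y, hy, hcy⟩ := hc
  rcases Nat.eq_zero_or_pos g with hg0 | hg
  · refine ⟨⊥, by rw [finrank_bot, hg0], ?_⟩
    intro l hl l' _
    rw [Submodule.mem_bot] at hl
    rw [hl, mul_zero, zero_mul, map_zero]
  set r := U.natDegree with hr
  have hrg : r ≤ g := hM.deg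
  have hfξ : f.eval ξ = 0 := by rw [hfac]; simp
  have hUξ : U.eval ξ ≠ 0 := by
    intro h0
    obtain ⟨s, t, hst⟩ := hM.cop
    have h1 := congrArg (eval ξ) hst
    rw [eval_add, eval_mul, eval_mul, h0, hfξ, mul_zero, mul_zero, add_zero, eval_one] at h1
    exact zero_ne_one h1
  set V₁ := V₀ %ₘ U with hV₁
  have hVd : V₁.degree < U.degree := degree_modByMonic_lt V₀ hM.monic
  set V := V₁ + C (-(V₁.eval ξ / U.eval ξ)) * U with hV
  have hVξ : V.eval ξ = 0 := by
    rw [hV, eval_add, eval_mul, eval_C]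
    field_simp
    ring
  have hVU : U ∣ V ^ 2 - f := by
    have h1 : V₁ = V₀ - U * (V₀ /ₘ U) := by
      rw [hV₁]; exact modByMonic_eq_sub_mul_div V₀ U
    have h2 : V ^ 2 - f = (V₀ ^ 2 - f) + U * ((C (-(V₁.eval ξ / U.eval ξ)) - (V₀ /ₘ U)) *
      (V₀ + V)) := by
      have h3 : V = V₀ + U * (C (-(V₁.eval ξ / U.eval ξ)) - (V₀ /ₘ U)) := by
        rw [hV]; linear_combination h1
      linear_combination (V + V₀) * h3
    rw [h2]
    exact dvd_add hM.dvd (dvd_mul_right _ _)
  have hVn : V.natDegree ≤ r := by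
    refine (natDegree_add_le _ _).trans (max_le (natDegree_le_natDegree hVd.le) ?_)
    exact (natDegree_C_mul_le _ _)
  have hX : (X - C ξ : F[X]).Monic := monic_X_sub_C ξ
  set U' := (X - C ξ) * U with hU'
  have hU'm : U'.Monic := hX.mul hM.monic
  have hU'n : U'.natDegree = r + 1 := by
    rw [hU', hX.natDegree_mul hM.monic, natDegree_X_sub_C, ← hr, add_comm]
  have hcopX : IsCoprime (X - C ξ) U := by
    rw [(irreducible_X_sub_C ξ).coprime_iff_not_dvd, dvd_iff_isRoot]
    exact hUξ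
  have hU'd : U' ∣ V ^ 2 - f := by
    refine hcopX.mul_dvd ?_ hVU
    rw [dvd_iff_isRoot]
    simp [IsRoot, hVξ, hfξ]
  obtain ⟨W, hW, hWd⟩ := mumford_red hn hU'm hU'd hU'n (by omega) (by omega)
  obtain ⟨V2, hV2⟩ : (X - C ξ) ∣ V := by rw [dvd_iff_isRoot]; exact hVξ
  have hV2n : V2.natDegree ≤ r - 1 := by
    by_cases h0 : V2 = 0
    · rw [h0, natDegree_zero]; exact Nat.zero_le _
    have h1 := hVn
    rw [hV2, hX.natDegree_mul' h0, natDegree_X_sub_C] at h1
    omega
  have hrel : (X - C ξ) * V2 ^ 2 = U * W + h := by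
    apply mul_left_cancel₀ hX.ne_zero
    rw [hV2, hfac, hU'] at hW
    linear_combination hW
  have hUu : IsUnit (AdjoinRoot.mk f U) := by
    obtain ⟨s, t, hst⟩ := hM.cop
    have h1 := congrArg (AdjoinRoot.mk f) hst
    rw [map_add, map_mul, map_mul, AdjoinRoot.mk_self, mul_zero, add_zero, map_one] at h1
    exact IsUnit.of_mul_eq_one_right _ h1
  obtain ⟨z, hz⟩ := (hUu.mul hy).exists_right_inv
  set ε : AdjoinRoot f := AdjoinRoot.mk f (C (h.eval ξ)⁻¹ * h) with hε
  set η : AdjoinRoot f := AdjoinRoot.mk f (C (h.eval ξ)) with hη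
  have hηε : AdjoinRoot.mk f h = η * ε := by
    rw [hη, hε, ← map_mul, ← mul_assoc, ← C_mul, mul_inv_cancel₀ hξ, C_1, one_mul]
  have hXε : AdjoinRoot.mk f (X - C ξ) * ε = 0 := by
    rw [hε, ← map_mul]
    have : (X - C ξ) * (C (h.eval ξ)⁻¹ * h) = C (h.eval ξ)⁻¹ * f := by rw [hfac]; ring
    rw [this, map_mul, AdjoinRoot.mk_self, mul_zero]
  have hεε : ε ^ 2 = ε := by
    obtain ⟨q, hq⟩ : (X - C ξ) ∣ C (h.eval ξ)⁻¹ * h - 1 := by
      rw [dvd_iff_isRoot]
      simp [IsRoot, hξ]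
    have h1 := congrArg (AdjoinRoot.mk f) hq
    rw [map_sub, map_one, ← hε, map_mul] at h1
    have h2 : ε * (ε - 1) = 0 := by
      rw [h1, ← mul_assoc, mul_comm ε, hXε, zero_mul]
    linear_combination h2
  let Φ : (degreeLT F ((r + 1) / 2) × degreeLT F ((2 * g + 1 - (r + 1)) / 2)) →ₗ[F]
      AdjoinRoot f :=
    { toFun := fun x => (AdjoinRoot.mk f ((x.1 : F[X]) * V2 + x.2 * U) * (1 - ε) +
        AdjoinRoot.mk f (x.1 : F[X]) * ε) * z
      map_add' := fun x y => by
        simp only [Prod.fst_add, Prod.snd_add, Submodule.coe_add, map_add, map_mul]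
        ring
      map_smul' := fun s x => by
        simp only [Prod.smul_fst, Prod.smul_snd, Submodule.coe_smul, RingHom.id_apply]
        rw [← smul_mul_assoc, smul_add, ← smul_mul_assoc, ← smul_mul_assoc, AdjoinRoot.smul_mk,
          AdjoinRoot.smul_mk, smul_add, smul_mul_assoc, smul_mul_assoc] }
  have hΦx : ∀ x, Φ x = (AdjoinRoot.mk f ((x.1 : F[X]) * V2 + x.2 * U) * (1 - ε) +
        AdjoinRoot.mk f (x.1 : F[X]) * ε) * z := fun x => rfl
  have hUV : IsCoprime U V2 := by
    have h1 : IsCoprime U (V ^ 2) := by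
      obtain ⟨W', hW'⟩ := hVU
      have h2 : V ^ 2 = f + U * W' := by rw [← hW']; ring
      rw [h2, IsCoprime.add_mul_left_right_iff]
      exact hM.cop
    have h2 : IsCoprime U V := (IsCoprime.pow_right_iff (by norm_num)).mp h1
    rw [hV2] at h2
    exact IsCoprime.of_mul_right_right h2
  have hhm : h.Monic := hX.of_mul_monic_left (hfac ▸ hf)
  have hhn : h.natDegree = 2 * g := by
    have h1 := hn
    rw [hfac, hX.natDegree_mul hhm, natDegree_X_sub_C] at h1
    omega
  have hinj : Function.Injective Φ := by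
    rw [← LinearMap.ker_eq_bot, LinearMap.ker_eq_bot']
    rintro ⟨a, b⟩ h0
    rw [hΦx] at h0
    have h1 : AdjoinRoot.mk f ((a : F[X]) * V2 + b * U) * (1 - ε) +
        AdjoinRoot.mk f (a : F[X]) * ε = 0 := by
      have := congrArg (fun t => t * (AdjoinRoot.mk f U * y)) h0
      simp only [zero_mul, mul_assoc] at this
      rwa [mul_comm z, hz, mul_one] at this
    have h1' : AdjoinRoot.mk f ((X - C ξ) * ((a : F[X]) * V2 + (b : F[X]) * U)) = 0 := by
      rw [map_mul]
      linear_combination (AdjoinRoot.mk f (X - C ξ)) * h1 +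
        (AdjoinRoot.mk f ((a : F[X]) * V2 + (b : F[X]) * U) - AdjoinRoot.mk f (a : F[X])) * hXε
    rw [AdjoinRoot.mk_eq_zero, hfac] at h1'
    have h1'' : h ∣ (a : F[X]) * V2 + b * U := (mul_dvd_mul_iff_left hX.ne_zero).mp h1'
    have ha := natDegree_of_mem a.2
    have hb := natDegree_of_mem b.2
    have h2 : (a : F[X]) * V2 + b * U = 0 := by
      refine eq_zero_of_dvd_of_natDegree_lt h1'' ?_
      rw [hhn]
      refine (natDegree_add_le _ _).trans_lt (max_lt ?_ ?_)
      · refine natDegree_mul_le.trans_lt ?_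
        omega
      · by_cases hb0 : (b : F[X]) = 0
        · rw [hb0, zero_mul, natDegree_zero]; omega
        have h6 := b.2
        rw [mem_degreeLT, degree_eq_natDegree hb0, Nat.cast_lt] at h6
        refine natDegree_mul_le.trans_lt ?_
        omega
    have h3 : U ∣ (a : F[X]) := by
      refine hUV.dvd_of_dvd_mul_right ?_
      exact ⟨-b, by linear_combination h2⟩
    have h4 : (a : F[X]) = 0 := by
      by_contra ha0
      have h5 := natDegree_le_of_dvd h3 ha0
      have h6 := a.2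
      rw [mem_degreeLT, degree_eq_natDegree ha0, Nat.cast_lt] at h6
      omega
    rw [h4, zero_mul, zero_add] at h2
    have h5 := (mul_eq_zero.mp h2).resolve_right hM.monic.ne_zero
    exact Prod.ext (Subtype.ext h4) (Subtype.ext h5)
  refine split_core hf hn (by omega) hU'n.le (V := V) (by omega) hWd (-(-1) ^ r) Φ hinj ?_
  intro x x'
  rw [hΦx, hΦx, hcy]
  have hs : ∀ t : AdjoinRoot f, (-(-1 : F) ^ r) • t = -(-1) ^ r * t := by
    intro t
    rw [Algebra.smul_def, map_neg, map_pow, map_neg, map_one]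
  have hXr : AdjoinRoot.root f - algebraMap F (AdjoinRoot f) ξ = AdjoinRoot.mk f (X - C ξ) := by
    rw [map_sub, AdjoinRoot.mk_X]
    rfl
  have hw : AdjoinRoot.mk f (X - C ξ) * AdjoinRoot.mk f V2 ^ 2 =
      AdjoinRoot.mk f U * AdjoinRoot.mk f W + η * ε := by
    rw [← hηε, ← map_pow, ← map_mul, hrel, map_add, map_mul]
  rw [hs, hηε, hXr, hV2, hU']
  simp only [map_add, map_mul]
  set t := AdjoinRoot.mk f (X - C ξ)
  set u := AdjoinRoot.mk f U
  set v := AdjoinRoot.mk f V2
  set w := AdjoinRoot.mk f W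
  set A := AdjoinRoot.mk f (x.1 : F[X])
  set B := AdjoinRoot.mk f (x.2 : F[X])
  set A' := AdjoinRoot.mk f (x'.1 : F[X])
  set B' := AdjoinRoot.mk f (x'.2 : F[X])
  have h1 : ((A * v + B * u) * (1 - ε) + A * ε) * ((A' * v + B' * u) * (1 - ε) + A' * ε) =
      (A * v + B * u) * (A' * v + B' * u) * (1 - ε) + A * A' * ε := by
    linear_combination ((A * v + B * u) * (A' * v + B' * u) - (A * v + B * u) * A' -
      A * (A' * v + B' * u) + A * A') * hεε
  have h2 : (η * ε - t) * ((A * v + B * u) * (A' * v + B' * u) * (1 - ε) + A * A' * ε) =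
      -(u * (A * A' * w + (A * B' + A' * B) * (t * v) + B * B' * (t * u))) := by
    linear_combination (-(η * (A * v + B * u) * (A' * v + B' * u)) + η * A * A') * hεε +
      ((A * v + B * u) * (A' * v + B' * u) - A * A') * hXε - A * A' * hw
  calc (-1) ^ r * u * y ^ 2 * (η * ε - t) * (((A * v + B * u) * (1 - ε) + A * ε) * z) *
        (((A' * v + B' * u) * (1 - ε) + A' * ε) * z) =
        (-1) ^ r * u * y ^ 2 * z ^ 2 * ((η * ε - t) *
        (((A * v + B * u) * (1 - ε) + A * ε) * ((A' * v + B' * u) * (1 - ε) + A' * ε))) := by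
          ring
    _ = (-1) ^ r * u * y ^ 2 * z ^ 2 *
        (-(u * (A * A' * w + (A * B' + A' * B) * (t * v) + B * B' * (t * u)))) := by
          rw [h1, h2]
    _ = -(-1) ^ r * (u * y * z) ^ 2 *
        (A * A' * w + (A * B' + A' * B) * (t * v) + B * B' * (t * u)) := by ring
    _ = _ := by rw [hz]; ring

end Pool.Agent.HYP
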