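import Pool.Agent.Lib.HYP.L.Det

/-!
Module L.Pair of MP_950c68_ag (genus g). The pair of Gram matrices determines the class and the basis
up to a common factor.

PROOF of `pair_unique`. `F` a field, `n = f.natDegree`. `(gram1 hf c b).det ≠ 0`, so (as
`gram1 hf c b = P * gram1 hf c (std f n) * Pᵀ`, `P = coord hf b`, by `eq_coord` and `gram1_chb`)
`P.det ≠ 0` and the `b i` are linearly independent, a basis of `L = AdjoinRoot f` (finrank `n`:
`AdjoinRoot.powerBasis'`, `finrank_eq_card_basis`, `basisOfLinearIndependentOfCardEqFinrank`;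
linear independence: if `Σ x_i b_i = 0` then `gram1_form` gives `(G1 y) x = 0` for all `y`). The same
for `b'`, `c'`. `c` is a unit (`gram1_det`: its norm is nonzero; `isUnit_iff_norm`); here one can avoid
the parity of `n`: if `c * x = 0` then `τ (c x b_j) = 0` for all `j`, so the coordinates of `x` are killed
by `G1`, `x = 0`; so multiplication by `c` is injective, hence surjective.
Let `T : L →ₗ[F] L` be the linear map with `T (b i) = b' i` (`Basis.constr`). By bilinearity
`τ (c' (T x) (T y)) = τ (c x y)` and `τ (θ c' (T x) (T y)) = τ (θ c x y)` for all `x`, `y`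
(`Basis.ext`/`LinearMap.ext_basis`, entries of the Gram matrices). So
`τ (c' (T (θ x)) (T y)) = τ (c (θ x) y) = τ (θ c x y) = τ (c' (θ T x) (T y))` for all `y`; `T` is
surjective and the form `τ (c' l l')` is nondegenerate, so `T (θ x) = θ T x`. By induction
`T (θ ^ j x) = θ ^ j T x`, by linearity `T (l x) = l T x` for all `l`; `u = T 1`, `T x = u x`,
`b' i = u b i`. `u` is a unit because `T` is surjective (`T x = 1`). Finally
`τ ((c' u ^ 2 - c) x y) = 0` for all `x, y`; with `y = 1`, `x = θ ^ j`: `eq_zero_of_tau`.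
-/

set_option autoImplicit false

open Polynomial

namespace Pool.Agent.HYP

variable {F : Type} [Field F] {f : F[X]} (hf : f.Monic)

private theorem pr_dot {n : ℕ} (v : Fin n → F) (h : ∀ y : Fin n → F, dotProduct y v = 0) : v = 0 := by
  funext i
  have := h (Pi.single i 1)
  rwa [single_dotProduct, one_mul] at this

private theorem pr_kill {n : ℕ} (c : AdjoinRoot f) (b : Fin n → AdjoinRoot f)
    (hd : (gram1 hf c b).det ≠ 0) (x : Fin n → F)
    (h : ∀ y : Fin n → F, tau hf (c * (∑ i, y i • b i) * (∑ i, x i • b i)) = 0) : x = 0 := by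
  apply Matrix.eq_zero_of_mulVec_eq_zero hd
  apply pr_dot
  intro y
  rw [← gram1_form hf c b y x]
  exact h y

private theorem pr_fin (hf : f.Monic) : Module.finrank F (AdjoinRoot f) = f.natDegree ∧
    FiniteDimensional F (AdjoinRoot f) := by
  refine ⟨?_, (AdjoinRoot.powerBasis' hf).finite⟩
  rw [(AdjoinRoot.powerBasis' hf).finrank]
  rfl

theorem basis_of_gram {n : ℕ} (hn : f.natDegree = n) (c : AdjoinRoot f) (b : Fin n → AdjoinRoot f)
    (hd : (gram1 hf c b).det ≠ 0) : IsUnit c ∧ (coord hf b).det ≠ 0 ∧
      ∃ B : Module.Basis (Fin n) F (AdjoinRoot f), ∀ i, B i = b i := by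
  obtain ⟨hfr, hfd⟩ := pr_fin hf
  have hcoord : (coord hf b).det ≠ 0 := by
    intro h0
    apply hd
    have h1 : gram1 hf c b =
        coord hf b * gram1 hf c (std f n) * (coord hf b).transpose := by
      conv_lhs => rw [eq_coord hf hn b]
      exact gram1_chb hf c (std f n) (coord hf b)
    rw [h1, Matrix.det_mul, Matrix.det_mul, h0, zero_mul, zero_mul]
  have hli : LinearIndependent F b := by
    rw [Fintype.linearIndependent_iff]
    intro x hx
    have h1 : x = 0 := by
      apply pr_kill hf c b hd x
      intro y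
      rw [hx, mul_zero, map_zero]
    intro i
    rw [h1]
    rfl
  have hcard : Fintype.card (Fin n) = Module.finrank F (AdjoinRoot f) := by
    rw [Fintype.card_fin, hfr, hn]
  set B := basisOfLinearIndependentOfCardEqFinrank' (K := F) b hli hcard with hB
  have hBb : ∀ i, B i = b i := by
    intro i
    rw [hB, coe_basisOfLinearIndependentOfCardEqFinrank']
  refine ⟨?_, hcoord, B, hBb⟩
  have hinj : Function.Injective (LinearMap.mulLeft F c) := by
    rw [← LinearMap.ker_eq_bot, LinearMap.ker_eq_bot']
    intro x hx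
    have hx' : c * x = 0 := hx
    have h1 : x = ∑ i, B.repr x i • b i := by
      conv_lhs => rw [← B.sum_repr x]
      exact Finset.sum_congr rfl fun i _ => by rw [hBb]
    have h2 : (fun i => B.repr x i) = 0 := by
      apply pr_kill hf c b hd
      intro y
      rw [← h1]
      have e : c * (∑ i, y i • b i) * x = (∑ i, y i • b i) * (c * x) := by ring
      rw [e, hx', mul_zero, map_zero]
    rw [h1]
    apply Finset.sum_eq_zero
    intro i _
    have : B.repr x i = 0 := congrFun h2 i
    rw [this, zero_smul]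
  obtain ⟨d, hd'⟩ := (LinearMap.injective_iff_surjective.1 hinj) 1
  exact IsUnit.of_mul_eq_one d hd'

theorem pair_unique {n : ℕ} (hn : f.natDegree = n) (c c' : AdjoinRoot f)
    (b b' : Fin n → AdjoinRoot f) (hd : (gram1 hf c b).det ≠ 0)
    (h1 : gram1 hf c b = gram1 hf c' b') (h2 : gram2 hf c b = gram2 hf c' b') :
    ∃ u : AdjoinRoot f, IsUnit u ∧ (∀ i, b' i = u * b i) ∧ c = c' * u ^ 2 := by
  obtain ⟨hcu, -, B, hB⟩ := basis_of_gram hf hn c b hd
  obtain ⟨hcu', -, B', hB'⟩ := basis_of_gram hf hn c' b' (by rw [← h1]; exact hd)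
  set T : AdjoinRoot f ≃ₗ[F] AdjoinRoot f := B.equiv B' (Equiv.refl _) with hT
  have hTb : ∀ i, T (b i) = b' i := by
    intro i
    rw [← hB i, hT, Module.Basis.equiv_apply, Equiv.refl_apply, hB' i]
  have hx : ∀ x, x = ∑ i, B.repr x i • b i := by
    intro x
    conv_lhs => rw [← B.sum_repr x]
    exact Finset.sum_congr rfl fun i _ => by rw [hB]
  have hTx : ∀ x, T x = ∑ i, B.repr x i • b' i := by
    intro x
    conv_lhs => rw [hx x]
    rw [map_sum]
    exact Finset.sum_congr rfl fun i _ => by rw [map_smul, hTb]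
  have key : ∀ a a' : AdjoinRoot f, gram1 hf a b = gram1 hf a' b' → ∀ x y,
      tau hf (a' * T x * T y) = tau hf (a * x * y) := by
    intro a a' h x y
    rw [hTx x, hTx y, gram1_form, ← h, ← gram1_form]
    rw [← hx x, ← hx y]
  have k1 := key c c' h1
  have k2 : ∀ x y, tau hf (AdjoinRoot.root f * c' * T x * T y) =
      tau hf (AdjoinRoot.root f * c * x * y) := by
    refine key (AdjoinRoot.root f * c) (AdjoinRoot.root f * c') ?_
    rw [← gram2_eq, ← gram2_eq]
    exact h2
  have nd : ∀ z, (∀ w, tau hf (c' * z * w) = 0) → z = 0 := by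
    intro z hz
    have h3 : c' * z = 0 := eq_zero_of_tau hf _ fun j _ => hz _
    exact (hcu'.mul_right_eq_zero).1 h3
  have hroot : ∀ x, T (AdjoinRoot.root f * x) = AdjoinRoot.root f * T x := by
    intro x
    rw [← sub_eq_zero]
    apply nd
    intro w
    obtain ⟨y, rfl⟩ := T.surjective w
    have e1 : c' * (T (AdjoinRoot.root f * x) - AdjoinRoot.root f * T x) * T y =
        c' * T (AdjoinRoot.root f * x) * T y - AdjoinRoot.root f * c' * T x * T y := by ring
    rw [e1, map_sub, k1, k2]
    have e2 : c * (AdjoinRoot.root f * x) * y = AdjoinRoot.root f * c * x * y := by ring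
    rw [e2, sub_self]
  have hmk : ∀ P : F[X], ∀ x, T (AdjoinRoot.mk f P * x) = AdjoinRoot.mk f P * T x := by
    intro P
    induction P using Polynomial.induction_on with
    | C a =>
      intro x
      have e : ∀ z, AdjoinRoot.mk f (C a) * z = a • z := by
        intro z
        rw [Algebra.smul_def]
        rfl
      rw [e, e, map_smul]
    | add p q hp hq =>
      intro x
      rw [map_add, add_mul, map_add, hp, hq, add_mul]
    | monomial m a ih =>
      intro x
      have e : ∀ z, AdjoinRoot.mk f (C a * X ^ (m + 1)) * z =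
          AdjoinRoot.mk f (C a * X ^ m) * (AdjoinRoot.root f * z) := by
        intro z
        rw [pow_succ, ← mul_assoc, map_mul, AdjoinRoot.mk_X]
        ring
      rw [e, e, ih, hroot]
  have hall : ∀ l x, T (l * x) = l * T x := by
    intro l x
    obtain ⟨P, rfl⟩ := AdjoinRoot.mk_surjective (g := f) l
    exact hmk P x
  have hu : ∀ x, T x = T 1 * x := by
    intro x
    have := hall x 1
    rw [mul_one] at this
    rw [this, mul_comm]
  refine ⟨T 1, ?_, fun i => ?_, ?_⟩
  · obtain ⟨x, hx1⟩ := T.surjective 1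
    rw [hu x] at hx1
    exact IsUnit.of_mul_eq_one x hx1
  · rw [← hTb i]
    exact hu _
  · symm
    rw [← sub_eq_zero]
    apply eq_zero_of_tau hf
    intro j _
    have h3 := k1 (AdjoinRoot.root f ^ j) 1
    rw [hu (AdjoinRoot.root f ^ j)] at h3
    have e : (c' * T 1 ^ 2 - c) * AdjoinRoot.root f ^ j =
        c' * (T 1 * AdjoinRoot.root f ^ j) * T 1 - c * AdjoinRoot.root f ^ j * 1 := by ring
    rw [e, map_sub, h3, sub_self]

end Pool.Agent.HYP
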